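import Pool.Agent.H783C.Defs

open Set Function Topology
open scoped Manifold ContDiff

namespace H783C

/-! T3: the maps `Rt j` -/
section T3
variable (D : DoorSys)

theorem T3.chi_nonneg (t : ℝ) : 0 ≤ chi t := Real.smoothTransition.nonneg _

theorem T3.chi_eq_one {t : ℝ} (h : 1 ≤ |t|) : chi t = 1 := by
  refine Real.smoothTransition.one_of_one_le ?_
  have : 1 ≤ t ^ 2 := by rw [← sq_abs]; nlinarith
  linarith

theorem T3.chi_eq_zero {t : ℝ} (h : |t| ≤ 1 / 2) : chi t = 0 := by
  refine Real.smoothTransition.zero_of_nonpos ?_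
  have : t ^ 2 ≤ 1 / 4 := by rw [← sq_abs]; nlinarith [abs_nonneg t]
  linarith

theorem T3.chi_contDiff : ContDiff ℝ ∞ chi :=
  Real.smoothTransition.contDiff.comp (by fun_prop)

theorem T3.s1_nonneg (j : D.J) (v : E) : 0 ≤ D.s1 j v :=
  mul_nonneg (by norm_num) (Finset.sum_nonneg fun _ _ => T3.chi_nonneg _)

theorem T3.s2_nonneg (j : D.J) (t : ℝ) : 0 ≤ D.s2 j t :=
  mul_nonneg (by norm_num) (T3.chi_nonneg _)

theorem T3.al_ne_be (j : D.J) : D.al j ≠ D.be j := by
  rcases D.al_mem j with h | h <;> rcases D.be_mem j with h' | h' <;> rw [h, h'] <;> decide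

theorem T3.s1_large (j : D.J) (v : E) (l : Fin 5) (hl : l ≠ D.al j) (h : D.rad j ≤ |v l|) :
    20 ≤ D.s1 j v := by
  have hr := D.rad_pos j
  have h1 : chi (v l / D.rad j) = 1 := by
    apply T3.chi_eq_one
    rw [abs_div, abs_of_pos hr, le_div_iff₀ hr, one_mul]
    exact h
  have h2 : chi (v l / D.rad j) ≤ ∑ l ∈ Finset.univ.erase (D.al j), chi (v l / D.rad j) :=
    Finset.single_le_sum (f := fun l => chi (v l / D.rad j)) (fun _ _ => T3.chi_nonneg _)
      (Finset.mem_erase.2 ⟨hl, Finset.mem_univ l⟩)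
  unfold DoorSys.s1
  rw [h1] at h2
  linarith

theorem T3.s2_large (j : D.J) (t : ℝ) (h : D.rad j ≤ |t|) : D.s2 j t = 20 := by
  have hr := D.rad_pos j
  have h1 : chi (t / D.rad j) = 1 := by
    apply T3.chi_eq_one
    rw [abs_div, abs_of_pos hr, le_div_iff₀ hr, one_mul]
    exact h
  rw [DoorSys.s2, h1, mul_one]

theorem T3.s1_zero (j : D.J) (v : E) (h : ∀ l, |v l| ≤ D.rad j / 2) : D.s1 j v = 0 := by
  have hr := D.rad_pos j
  unfold DoorSys.s1
  rw [Finset.sum_eq_zero, mul_zero]
  intro l _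
  apply T3.chi_eq_zero
  rw [abs_div, abs_of_pos hr, div_le_iff₀ hr]
  linarith [h l]

theorem T3.s2_zero (j : D.J) (t : ℝ) (h : |t| ≤ D.rad j / 2) : D.s2 j t = 0 := by
  have hr := D.rad_pos j
  rw [DoorSys.s2, T3.chi_eq_zero, mul_zero]
  rw [abs_div, abs_of_pos hr, div_le_iff₀ hr]
  linarith

/-- `s1` does not depend on the coordinate `al j` -/
theorem T3.s1_congr (j : D.J) (v w : E) (h : ∀ l, l ≠ D.al j → v l = w l) :
    D.s1 j v = D.s1 j w := by
  unfold DoorSys.s1
  congr 1
  refine Finset.sum_congr rfl fun l hl => ?_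
  rw [h l (Finset.mem_erase.1 hl).1]

theorem T3.Rt_al (j : D.J) (u : E) :
    D.Rt j u (D.al j) = D.cp j (D.al j) + (u (D.al j) - D.c j (D.al j)) + D.s1 j (u - D.c j) := by
  have := T3.al_ne_be D j
  simp [DoorSys.Rt, Pi.single_eq_of_ne this]

theorem T3.Rt_be (j : D.J) (u : E) :
    D.Rt j u (D.be j) = D.cp j (D.be j) + (u (D.be j) - D.c j (D.be j)) +
      D.s2 j ((u (D.al j) - D.c j (D.al j)) + D.s1 j (u - D.c j)) := by
  have := T3.al_ne_be D j
  simp [DoorSys.Rt, Pi.single_eq_of_ne this.symm]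

theorem T3.Rt_other (j : D.J) (u : E) (l : Fin 5) (h1 : l ≠ D.al j) (h2 : l ≠ D.be j) :
    D.Rt j u l = D.cp j l + (u l - D.c j l) := by
  simp [DoorSys.Rt, Pi.single_eq_of_ne h1, Pi.single_eq_of_ne h2]

theorem Rt_core (j : D.J) (u : E) (h : ∀ l, |u l - D.c j l| ≤ D.rad j / 2) :
    D.Rt j u = D.cp j + (u - D.c j) := by
  have h1 : D.s1 j (u - D.c j) = 0 := T3.s1_zero D j _ h
  have h2 : D.s2 j ((u - D.c j) (D.al j) + D.s1 j (u - D.c j)) = 0 := by
    rw [h1, add_zero]
    exact T3.s2_zero D j _ (h _)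
  unfold DoorSys.Rt
  rw [h2, h1]
  simp

theorem Rt_pass (j : D.J) (u : E) (hu : u ∈ Y0) (h : D.Rt j u ∈ Y0) : Pass D j u (D.Rt j u) := by
  have hcb := D.c_mem j
  have hcpb := D.cp_mem j
  have hU : ∀ l, l ≠ D.al j → |u l - D.c j l| < D.rad j := by
    intro l hl
    by_contra hc
    push Not at hc
    have h1 := T3.s1_large D j (u - D.c j) l hl hc
    have h2 := T3.Rt_al D j u
    have h3 := (abs_lt.1 (h (D.al j))).2
    have h4 := (abs_lt.1 (hu (D.al j))).1
    have h5 := (hcb (D.al j)).2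
    have h6 := (hcpb (D.al j)).1
    linarith
  have hA : |(u (D.al j) - D.c j (D.al j)) + D.s1 j (u - D.c j)| < D.rad j := by
    by_contra hc
    push Not at hc
    have h1 := T3.s2_large D j _ hc
    have h2 := T3.Rt_be D j u
    have h3 := (abs_lt.1 (h (D.be j))).2
    have h4 := (abs_lt.1 (hu (D.be j))).1
    have h5 := (hcb (D.be j)).2
    have h6 := (hcpb (D.be j)).1
    rw [h1] at h2
    linarith
  refine ⟨hU, ?_, ?_, ?_⟩
  · intro l hl
    by_cases hla : l = D.al j
    · subst hla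
      rw [T3.Rt_al]
      have e : D.cp j (D.al j) + (u (D.al j) - D.c j (D.al j)) + D.s1 j (u - D.c j)
          - D.cp j (D.al j) = (u (D.al j) - D.c j (D.al j)) + D.s1 j (u - D.c j) := by ring
      rw [e]
      exact hA
    · rw [T3.Rt_other D j u l hla hl]
      have e : D.cp j l + (u l - D.c j l) - D.cp j l = u l - D.c j l := by ring
      rw [e]
      exact hU l hla
  · intro l
    by_cases hla : l = D.al j
    · subst hla
      rw [T3.Rt_al]
      linarith [T3.s1_nonneg D j (u - D.c j)]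
    · by_cases hlb : l = D.be j
      · subst hlb
        rw [T3.Rt_be]
        linarith [T3.s2_nonneg D j (u (D.al j) - D.c j (D.al j) + D.s1 j (u - D.c j))]
      · rw [T3.Rt_other D j u l hla hlb]
        linarith
  · intro hc l
    rw [Rt_core D j u hc]
    simp

theorem T3.s1_contDiff (j : D.J) : ContDiff ℝ ∞ (D.s1 j) := by
  unfold DoorSys.s1
  refine contDiff_const.mul (ContDiff.sum fun l _ => T3.chi_contDiff.comp ?_)
  exact (contDiff_apply ℝ ℝ l).div_const _

theorem T3.s2_contDiff (j : D.J) : ContDiff ℝ ∞ (D.s2 j) := by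
  unfold DoorSys.s2
  exact contDiff_const.mul (T3.chi_contDiff.comp (contDiff_id.div_const _))

theorem T3.single_contDiff (i : Fin 5) {f : E → ℝ} (hf : ContDiff ℝ ∞ f) :
    ContDiff ℝ ∞ fun u => (Pi.single i (f u) : E) := by
  rw [contDiff_pi]
  intro l
  by_cases h : l = i
  · subst h
    simpa using hf
  · simpa [Pi.single_eq_of_ne h] using contDiff_const

/-- `Rt j` is a smooth diffeomorphism of `ℝ⁵` -/
theorem Rt_diffeo (j : D.J) : ∃ Ri : E → E, ContDiff ℝ ∞ (D.Rt j) ∧ ContDiff ℝ ∞ Ri ∧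
    (∀ u, Ri (D.Rt j u) = u) ∧ (∀ u, D.Rt j (Ri u) = u) := by
  have hne := T3.al_ne_be D j
  set W : E → E := fun y => (y - D.cp j) - Pi.single (D.be j) (D.s2 j ((y - D.cp j) (D.al j)))
    with hW
  have hWc : ContDiff ℝ ∞ W := by
    refine (contDiff_id.sub contDiff_const).sub (T3.single_contDiff _ ((T3.s2_contDiff D j).comp ?_))
    exact (contDiff_apply ℝ ℝ (D.al j)).comp (contDiff_id.sub contDiff_const)
  refine ⟨fun y => D.c j + (W y - Pi.single (D.al j) (D.s1 j (W y))), ?_, ?_, ?_, ?_⟩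
  · unfold DoorSys.Rt
    have h0 : ContDiff ℝ ∞ fun u : E => u - D.c j := contDiff_id.sub contDiff_const
    have h1 : ContDiff ℝ ∞ fun u : E => D.s1 j (u - D.c j) := (T3.s1_contDiff D j).comp h0
    refine ((contDiff_const.add h0).add (T3.single_contDiff _ h1)).add (T3.single_contDiff _
      ((T3.s2_contDiff D j).comp (((contDiff_apply ℝ ℝ (D.al j)).comp h0).add h1)))
  · exact contDiff_const.add (hWc.sub (T3.single_contDiff _ ((T3.s1_contDiff D j).comp hWc)))
  · intro u
    have h1 : W (D.Rt j u) = (u - D.c j) + Pi.single (D.al j) (D.s1 j (u - D.c j)) := by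
      funext l
      simp only [hW, Pi.sub_apply, Pi.add_apply]
      by_cases hlb : l = D.be j
      · subst hlb
        rw [T3.Rt_be, T3.Rt_al, Pi.single_eq_same, Pi.single_eq_of_ne hne.symm]
        have e : D.cp j (D.al j) + (u (D.al j) - D.c j (D.al j)) + D.s1 j (u - D.c j)
          - D.cp j (D.al j) = (u (D.al j) - D.c j (D.al j)) + D.s1 j (u - D.c j) := by ring
        rw [e]
        ring
      · rw [Pi.single_eq_of_ne hlb]
        by_cases hla : l = D.al j
        · subst hla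
          rw [T3.Rt_al, Pi.single_eq_same]
          ring
        · rw [T3.Rt_other D j u l hla hlb, Pi.single_eq_of_ne hla]
          ring
    have h2 : D.s1 j (W (D.Rt j u)) = D.s1 j (u - D.c j) := by
      apply T3.s1_congr
      intro l hl
      rw [h1, Pi.add_apply, Pi.single_eq_of_ne hl, add_zero]
    simp only [h2]
    rw [h1]
    abel
  · intro y
    simp only
    set v : E := W y - Pi.single (D.al j) (D.s1 j (W y)) with hv
    have h1 : D.s1 j v = D.s1 j (W y) := by
      apply T3.s1_congr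
      intro l hl
      rw [hv, Pi.sub_apply, Pi.single_eq_of_ne hl, sub_zero]
    have h2 : v (D.al j) + D.s1 j v = (y - D.cp j) (D.al j) := by
      rw [h1, hv]
      simp only [hW, Pi.sub_apply, Pi.single_eq_same, Pi.single_eq_of_ne hne, sub_zero]
      ring
    unfold DoorSys.Rt
    have h0 : D.c j + v - D.c j = v := by abel
    rw [h0, h2, h1, hv]
    simp only [hW]
    abel

end T3

end H783C
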