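import Pool.Agent.H783C.Defs

/-! T6: cutting off a locally small map to a globally `C²`-small one. -/

open Set Function Topology
open scoped Manifold ContDiff

namespace H783C

/-- smooth bump function for a compact set inside an open set -/
theorem exists_bump (C C' : Set E) (hC' : IsCompact C') (hCC : C' ⊆ interior C) :
    ∃ ρ : E → ℝ, ContDiff ℝ ∞ ρ ∧ HasCompactSupport ρ ∧ tsupport ρ ⊆ interior C ∧
      ∀ x ∈ C', ρ x = 1 := by
  obtain ⟨L, hL, hKL, hLU⟩ := exists_compact_between hC' isOpen_interior hCC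
  have hd : Disjoint (interior L)ᶜ C' := by
    rw [Set.disjoint_left]
    intro x hx hx'
    exact hx (hKL hx')
  obtain ⟨f, hf0, hf1, -⟩ := exists_contMDiffMap_zero_one_of_isClosed (n := ⊤) 𝓘(ℝ, E)
    isOpen_interior.isClosed_compl hC'.isClosed hd
  have hsupp : support (f : E → ℝ) ⊆ interior L := by
    intro x hx
    by_contra hxn
    exact hx (hf0 hxn)
  have hts : tsupport (f : E → ℝ) ⊆ L :=
    closure_minimal (hsupp.trans interior_subset) hL.isClosed
  refine ⟨f, ?_, ?_, hts.trans hLU, ?_⟩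
  · exact contMDiff_iff_contDiff.mp f.contMDiff
  · exact HasCompactSupport.of_support_subset_isCompact hL (hsupp.trans interior_subset)
  · intro x hx
    exact hf1 hx

theorem cutoff (C C' : Set E) (hC : IsCompact C) (hC' : IsCompact C') (hCC : C' ⊆ interior C)
    (e : ℝ) (he : 0 < e) :
    ∃ d > 0, ∀ h : E → E, (∀ x ∈ C, ContDiffAt ℝ 2 h x) →
      (∀ x ∈ C, ∀ k ≤ 2, ‖iteratedFDeriv ℝ k h x‖ < d) →
        ∃ H : E → E, C2small H e ∧ ∀ x ∈ C', H x = h x := by
  obtain ⟨ρ, hρ, hρc, hρs, hρ1⟩ := exists_bump C C' hC' hCC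
  -- bound for the derivatives of `ρ`
  have hb : ∀ i : ℕ, ∃ A : ℝ, ∀ x, ‖iteratedFDeriv ℝ i ρ x‖ ≤ A := by
    intro i
    exact (hρc.iteratedFDeriv i).exists_bound_of_continuous
      (hρ.continuous_iteratedFDeriv (by exact_mod_cast le_top))
  choose A hA using hb
  obtain ⟨B, hB⟩ : ∃ B : ℝ, B = |A 0| + |A 1| + |A 2| + 1 := ⟨_, rfl⟩
  have hBpos : 0 < B := by
    have := abs_nonneg (A 0); have := abs_nonneg (A 1); have := abs_nonneg (A 2)
    rw [hB]; linarith
  have hBb : ∀ i ≤ 2, ∀ x, ‖iteratedFDeriv ℝ i ρ x‖ ≤ B := by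
    intro i hi x
    have h0 := abs_nonneg (A 0); have h1 := abs_nonneg (A 1); have h2 := abs_nonneg (A 2)
    have hx := hA i x
    have hle := le_abs_self (A i)
    interval_cases i <;> rw [hB] <;> linarith
  refine ⟨e / (4 * B), by positivity, ?_⟩
  intro h hh hd
  obtain ⟨H, hH⟩ : ∃ H : E → E, H = fun x => ρ x • h x := ⟨_, rfl⟩
  -- `H` vanishes near points outside the support
  have hout : ∀ x, x ∉ interior C → H =ᶠ[𝓝 x] fun _ => 0 := by
    intro x hx
    have hx' : x ∉ tsupport ρ := fun h' => hx (hρs h')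
    have := (isClosed_tsupport ρ).isOpen_compl.mem_nhds hx'
    filter_upwards [this] with y hy
    rw [hH]
    simp only
    rw [image_eq_zero_of_notMem_tsupport hy, zero_smul]
  have hon : ContDiffOn ℝ 2 h (interior C) := fun x hx =>
    (hh x (interior_subset hx)).contDiffWithinAt
  have hHC : ContDiff ℝ 2 H := by
    rw [contDiff_iff_contDiffAt]
    intro x
    by_cases hx : x ∈ interior C
    · rw [hH]
      exact (hρ.of_le (WithTop.coe_le_coe.mpr le_top : (2 : ℕ∞ω) ≤ ∞)).contDiffAt.smul (hh x (interior_subset hx))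
    · exact contDiffAt_const.congr_of_eventuallyEq (hout x hx)
  have hbound : ∀ k ≤ 2, ∀ x, ‖iteratedFDeriv ℝ k H x‖ ≤ e := by
    intro k hk x
    by_cases hx : x ∈ interior C
    · have h1 : iteratedFDeriv ℝ k H x = iteratedFDerivWithin ℝ k H (interior C) x :=
        (iteratedFDerivWithin_of_isOpen k isOpen_interior hx).symm
      rw [h1, hH]
      have h2 := norm_iteratedFDerivWithin_smul_le (𝕜 := ℝ) (N := 2) (n := k)
        ((hρ.of_le (WithTop.coe_le_coe.mpr le_top : (2 : ℕ∞ω) ≤ ∞) : ContDiff ℝ 2 ρ).contDiffOn (s := interior C))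
        hon isOpen_interior.uniqueDiffOn hx (by exact_mod_cast hk)
      refine h2.trans ?_
      have h3 : ∀ i ∈ Finset.range (k + 1),
          (k.choose i : ℝ) * ‖iteratedFDerivWithin ℝ i ρ (interior C) x‖ *
            ‖iteratedFDerivWithin ℝ (k - i) h (interior C) x‖ ≤
          (k.choose i : ℝ) * (e / 4) := by
        intro i hi
        have hi' : i ≤ k := Nat.lt_succ_iff.mp (Finset.mem_range.mp hi)
        rw [iteratedFDerivWithin_of_isOpen i isOpen_interior hx,
          iteratedFDerivWithin_of_isOpen (k - i) isOpen_interior hx, mul_assoc]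
        apply mul_le_mul_of_nonneg_left _ (Nat.cast_nonneg _)
        have ha := hBb i (by omega) x
        have hb := (hd x (interior_subset hx) (k - i) (by omega)).le
        calc ‖iteratedFDeriv ℝ i ρ x‖ * ‖iteratedFDeriv ℝ (k - i) h x‖
            ≤ B * (e / (4 * B)) := mul_le_mul ha hb (norm_nonneg _) hBpos.le
          _ = e / 4 := by field_simp
      refine (Finset.sum_le_sum h3).trans ?_
      rw [← Finset.sum_mul]
      have h4 : ∑ i ∈ Finset.range (k + 1), (k.choose i : ℝ) = 2 ^ k := by
        have := Nat.sum_range_choose k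
        exact_mod_cast this
      rw [h4]
      have h5 : (2 : ℝ) ^ k ≤ 4 := by
        interval_cases k <;> norm_num
      nlinarith
    · have h1 : iteratedFDeriv ℝ k H x = iteratedFDeriv ℝ k (fun _ : E => (0 : E)) x :=
        ((hout x hx).iteratedFDeriv ℝ k).eq_of_nhds
      rw [h1]
      have : iteratedFDeriv ℝ k (fun _ : E => (0 : E)) x = 0 := by
        have := iteratedFDeriv_fun_zero (𝕜 := ℝ) (E := E) (F := E) (n := k)
        rw [this]; rfl
      rw [this, norm_zero]
      exact he.le
  refine ⟨H, ⟨hHC.differentiable (by norm_num), ?_, ?_, ?_⟩, ?_⟩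
  · intro x
    have := hbound 0 (by norm_num) x
    rwa [norm_iteratedFDeriv_zero] at this
  · intro x
    have := hbound 1 (by norm_num) x
    rwa [norm_iteratedFDeriv_one] at this
  · intro x y
    have hd1 : Differentiable ℝ (fderiv ℝ H) :=
      (hHC.fderiv_right (m := 1) (by norm_num)).differentiable (by norm_num)
    have hb2 : ∀ z ∈ (univ : Set E), ‖fderiv ℝ (fderiv ℝ H) z‖ ≤ e := by
      intro z _
      have := hbound 2 le_rfl z
      rw [show (2 : ℕ) = 1 + 1 from rfl, ← norm_iteratedFDeriv_fderiv,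
        norm_iteratedFDeriv_one] at this
      exact this
    exact convex_univ.norm_image_sub_le_of_norm_fderiv_le (fun z _ => hd1 z) hb2
      (mem_univ y) (mem_univ x)
  · intro x hx
    rw [hH]
    simp only
    rw [hρ1 x hx, one_smul]

end H783C
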