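import Pool.Agent.H783C.Defs

/-!
# The concrete door system (task T2)
-/

open Set Function Topology
open scoped Manifold ContDiff

namespace H783C

/-! ### Elementary facts on the scales -/
section scales
variable (p : Par)

theorem Par.x_le (n : ℕ) : p.x n ≤ 1 / 10 ^ 40 := by
  have h := p.small n
  have hp := p.pos n
  have h1 : (1 : ℝ) ≤ ((n : ℝ) + 1) * (1000 ^ n * n.factorial) := by
    have ha : (1 : ℝ) ≤ (n : ℝ) + 1 := by
      have : (0 : ℝ) ≤ n := Nat.cast_nonneg n
      linarith
    have hb : (1 : ℝ) ≤ 1000 ^ n := one_le_pow₀ (by norm_num)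
    have hc : (1 : ℝ) ≤ (n.factorial : ℝ) := by
      exact_mod_cast Nat.succ_le_of_lt (Nat.factorial_pos n)
    calc (1 : ℝ) = 1 * (1 * 1) := by ring
      _ ≤ ((n : ℝ) + 1) * (1000 ^ n * n.factorial) := by
        gcongr
  rw [le_div_iff₀ (by positivity)]
  have h2 : p.x n * 10 ^ 40 ≤ p.x n * 10 ^ 40 * (((n : ℝ) + 1) * (1000 ^ n * n.factorial)) :=
    le_mul_of_one_le_right (by positivity) h1
  calc p.x n * 10 ^ 40 ≤ p.x n * 10 ^ 40 * (((n : ℝ) + 1) * (1000 ^ n * n.factorial)) := h2
    _ = (10 : ℝ) ^ 40 * (n + 1) * (1000 ^ n * n.factorial) * p.x n := by ring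
    _ ≤ 1 := h

theorem Par.x_le_one (n : ℕ) : p.x n ≤ 1 := (p.x_le n).trans (by norm_num)

theorem Par.x_anti_succ (n : ℕ) : p.x (n + 1) ≤ p.x n := by
  have h1 : p.x (n + 1) ^ 3 ≤ p.x n ^ 3 := by
    rw [p.step n, pow_succ]
    exact mul_le_of_le_one_right (by have := p.pos n; positivity) (p.x_le_one n)
  exact le_of_pow_le_pow_left₀ (by norm_num) (p.pos n).le h1

theorem Par.x_anti : Antitone p.x := antitone_nat_of_succ_le p.x_anti_succ

theorem Par.dl_pos (n : ℕ) : 0 < p.dl n := by
  have := p.pos n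
  unfold Par.dl
  positivity

theorem Par.dl_succ (n : ℕ) : p.dl (n + 1) = p.x n ^ 12 := by
  unfold Par.dl
  calc p.x (n + 1) ^ 9 = (p.x (n + 1) ^ 3) ^ 3 := by ring
    _ = (p.x n ^ 4) ^ 3 := by rw [p.step n]
    _ = p.x n ^ 12 := by ring

theorem Par.dl_succ_succ (n : ℕ) : p.dl (n + 2) = p.x n ^ 16 := by
  rw [p.dl_succ (n + 1)]
  calc p.x (n + 1) ^ 12 = (p.x (n + 1) ^ 3) ^ 4 := by ring
    _ = (p.x n ^ 4) ^ 4 := by rw [p.step n]
    _ = p.x n ^ 16 := by ring

theorem Par.x_cube_le (n : ℕ) : p.x n ^ 3 ≤ 1 / 10 ^ 120 := by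
  calc p.x n ^ 3 ≤ (1 / 10 ^ 40) ^ 3 := by
        gcongr
        · exact (p.pos n).le
        · exact p.x_le n
    _ = 1 / 10 ^ 120 := by norm_num

theorem Par.dl_succ_le (n : ℕ) : p.dl (n + 1) ≤ 1 / 10 ^ 120 * p.dl n := by
  rw [p.dl_succ]
  unfold Par.dl
  calc p.x n ^ 12 = p.x n ^ 3 * p.x n ^ 9 := by ring
    _ ≤ 1 / 10 ^ 120 * p.x n ^ 9 := by
      have := p.pos n
      exact mul_le_mul_of_nonneg_right (p.x_cube_le n) (by positivity)

theorem Par.dl_succ_le_half (n : ℕ) : 2 * p.dl (n + 1) ≤ p.dl n := by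
  have h := p.dl_succ_le n
  have h0 := p.dl_pos n
  have : (1 : ℝ) / 10 ^ 120 ≤ 1 / 2 := by norm_num
  nlinarith

theorem Par.dl_anti : Antitone p.dl := by
  refine antitone_nat_of_succ_le fun n => ?_
  have := p.dl_succ_le_half n
  have := p.dl_pos (n + 1)
  linarith

theorem Par.dl_le (n : ℕ) : p.dl n ≤ 1 / 10 ^ 40 := by
  unfold Par.dl
  calc p.x n ^ 9 ≤ p.x n ^ 1 :=
        pow_le_pow_of_le_one (p.pos n).le (p.x_le_one n) (by norm_num)
    _ = p.x n := by ring
    _ ≤ _ := p.x_le n

theorem Par.tail_aux (a k : ℕ) :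
    ∑ i ∈ Finset.Ico a (a + k), p.dl i ≤ 2 * p.dl a - 2 * p.dl (a + k) := by
  induction k with
  | zero => simp
  | succ k ih =>
    rw [← add_assoc, Finset.sum_Ico_succ_top (by omega)]
    have := p.dl_succ_le_half (a + k)
    linarith

theorem Par.tail (a b : ℕ) : ∑ i ∈ Finset.Ico a b, p.dl i ≤ 2 * p.dl a := by
  rcases le_total b a with h | h
  · rw [Finset.Ico_eq_empty_of_le h]
    have := p.dl_pos a
    simp; linarith
  · obtain ⟨k, rfl⟩ := Nat.exists_eq_add_of_le h
    have := p.tail_aux a k
    have := p.dl_pos (a + k)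
    linarith

theorem V_zero (l : Fin 5) : V 0 l = 0 := by
  unfold V
  by_cases h : l = 0
  · simp [h]
  · rw [if_neg h, if_neg (by omega)]

theorem V_nonneg (d : ℕ) (l : Fin 5) : 0 ≤ V d l := by
  unfold V
  split_ifs
  · have : (1 : ℝ) ≤ 2 ^ d := one_le_pow₀ (by norm_num)
    linarith
  · norm_num
  · norm_num

theorem V_le (d : ℕ) (hd : d ≤ 13) (l : Fin 5) : V d l ≤ 8191 := by
  unfold V
  split_ifs
  · have : (2 : ℝ) ^ d ≤ 2 ^ 13 := pow_le_pow_right₀ (by norm_num) hd
    norm_num at this ⊢
    linarith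
  · norm_num
  · norm_num

/-- tails of digit sums are non-negative and small -/
theorem Par.tail_V (s : ℕ → ℕ) (hs : ∀ i, s i ≤ 13) (l : Fin 5) (a b : ℕ) :
    0 ≤ ∑ i ∈ Finset.Ico a b, p.dl i * V (s i) l ∧
      ∑ i ∈ Finset.Ico a b, p.dl i * V (s i) l ≤ 16382 * p.dl a := by
  constructor
  · exact Finset.sum_nonneg fun i _ => mul_nonneg (p.dl_pos i).le (V_nonneg _ _)
  · calc ∑ i ∈ Finset.Ico a b, p.dl i * V (s i) l ≤ ∑ i ∈ Finset.Ico a b, p.dl i * 8191 :=
          Finset.sum_le_sum fun i _ => mul_le_mul_of_nonneg_left (V_le _ (hs i) l) (p.dl_pos i).le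
      _ = (∑ i ∈ Finset.Ico a b, p.dl i) * 8191 := by rw [Finset.sum_mul]
      _ ≤ (2 * p.dl a) * 8191 := mul_le_mul_of_nonneg_right (p.tail a b) (by norm_num)
      _ = 16382 * p.dl a := by ring

/-- separation of two digit sums by their first different digit (coordinate `0`) -/
theorem Par.sep_first (s s' : ℕ → ℕ) (hs : ∀ i, s i ≤ 13) (hs' : ∀ i, s' i ≤ 13) (R R' l : ℕ)
    (hl : l ≤ R) (hl' : l ≤ R') (heq : ∀ i < l, s i = s' i) (hne : s l ≠ s' l) :
    p.dl l / 2 ≤ |∑ i ∈ Finset.range (R + 1), p.dl i * V (s i) 0 -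
      ∑ i ∈ Finset.range (R' + 1), p.dl i * V (s' i) 0| := by
  rw [← Finset.sum_range_add_sum_Ico _ (show l + 1 ≤ R + 1 by omega),
    ← Finset.sum_range_add_sum_Ico _ (show l + 1 ≤ R' + 1 by omega),
    Finset.sum_range_succ, Finset.sum_range_succ]
  have h0 : ∑ i ∈ Finset.range l, p.dl i * V (s i) 0 = ∑ i ∈ Finset.range l, p.dl i * V (s' i) 0 :=
    Finset.sum_congr rfl fun i hi => by rw [heq i (Finset.mem_range.1 hi)]
  rw [h0]
  obtain ⟨ha, hb⟩ := p.tail_V s hs 0 (l + 1) (R + 1)
  obtain ⟨ha', hb'⟩ := p.tail_V s' hs' 0 (l + 1) (R' + 1)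
  have hd : p.dl l ≤ |p.dl l * V (s l) 0 - p.dl l * V (s' l) 0| := by
    have hV : ∀ d, V d 0 = (2 : ℝ) ^ d - 1 := fun d => by simp [V]
    rw [hV, hV, ← mul_sub, abs_mul, abs_of_pos (p.dl_pos l)]
    refine le_mul_of_one_le_right (p.dl_pos l).le ?_
    have key : ∀ a b : ℕ, a < b → (1 : ℝ) ≤ 2 ^ b - 2 ^ a := by
      intro a b hab
      have h1 : (2 : ℝ) ^ (a + 1) ≤ 2 ^ b := pow_le_pow_right₀ (by norm_num) hab
      have h2 : (1 : ℝ) ≤ 2 ^ a := one_le_pow₀ (by norm_num)
      rw [pow_succ] at h1
      linarith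
    rcases lt_or_gt_of_ne hne with h | h
    · have := key _ _ h
      rw [abs_sub_comm]
      exact (by linarith : (1 : ℝ) ≤ (2 ^ (s' l) - 1) - (2 ^ (s l) - 1)).trans (le_abs_self _)
    · have := key _ _ h
      exact (by linarith : (1 : ℝ) ≤ (2 ^ (s l) - 1) - (2 ^ (s' l) - 1)).trans (le_abs_self _)
  have hsm : 16382 * p.dl (l + 1) ≤ p.dl l / 2 := by
    have h := p.dl_succ_le l
    have h0 := p.dl_pos l
    have : (1 : ℝ) / 10 ^ 120 ≤ 1 / 10 ^ 10 := by norm_num
    nlinarith
  set A := p.dl l * V (s l) 0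
  set B := p.dl l * V (s' l) 0
  set T := ∑ i ∈ Finset.Ico (l + 1) (R + 1), p.dl i * V (s i) 0
  set T' := ∑ i ∈ Finset.Ico (l + 1) (R' + 1), p.dl i * V (s' i) 0
  set Q := ∑ i ∈ Finset.range l, p.dl i * V (s' i) 0
  have hT : |T' - T| ≤ p.dl l / 2 := by
    rw [abs_le]
    constructor <;> linarith
  have e : A - B = (Q + A + T - (Q + B + T')) + (T' - T) := by ring
  have h3 : |A - B| ≤ |Q + A + T - (Q + B + T')| + |T' - T| := by
    conv_lhs => rw [e]
    exact abs_add_le _ _
  linarith

end scales

/-! ### Digits of the doors -/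

theorem Door.arr_le (d : Door) (hd : d.valid) (i : ℕ) : d.arr i ≤ 13 := by
  cases d with
  | F k m a c =>
    obtain ⟨h1, h2, h3, h4⟩ := hd
    simp only [Door.arr]
    split_ifs <;> omega
  | S k d c =>
    obtain ⟨h1, h2, h3⟩ := hd
    simp only [Door.arr]
    split_ifs <;> omega

theorem Door.dep_le (d : Door) (hd : d.valid) (i : ℕ) : d.dep i ≤ 13 := by
  cases d with
  | F k m a c =>
    obtain ⟨h1, h2, h3, h4⟩ := hd
    simp only [Door.dep]
    split_ifs <;> omega
  | S k d c =>
    obtain ⟨h1, h2, h3⟩ := hd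
    simp only [Door.dep]
    split_ifs <;> omega

theorem Door.rank_pos' (d : Door) : 1 ≤ d.rank := by
  cases d <;> simp [Door.rank]

theorem Door.vis_rank (d : Door) (n : ℕ) (h : d.vis n) : n + 1 ≤ d.rank := by
  cases d <;> simp only [Door.vis, Door.rank] at * <;> omega

/-- two different doors differ in an arrival digit of level `≤` the smaller rank -/
theorem Door.arr_diff (d d' : Door) (hd : d.valid) (hd' : d'.valid) (hne : d ≠ d')
    (hr : d'.rank ≤ d.rank) : ∃ l ≤ d'.rank, d.arr l ≠ d'.arr l := by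
  by_contra hcon
  push Not at hcon
  apply hne
  cases d with
  | F k m a c =>
    obtain ⟨h1, h2, h3, h4⟩ := hd
    cases d' with
    | F k' m' a' c' =>
      obtain ⟨h1', h2', h3', h4'⟩ := hd'
      simp only [Door.rank] at hr hcon
      have hk : k = k' := by
        rcases lt_trichotomy k k' with h | h | h
        · have := hcon k (by omega)
          simp only [Door.arr] at this
          split_ifs at this <;> omega
        · exact h
        · have := hcon k' (by omega)
          simp only [Door.arr] at this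
          split_ifs at this <;> omega
      subst hk
      have hm : m = m' := by
        by_contra hmm
        have := hcon m' (by omega)
        simp only [Door.arr] at this
        split_ifs at this <;> omega
      subst hm
      have ha := hcon m (by omega)
      have hc := hcon (m + 1) (by omega)
      simp only [Door.arr] at ha hc
      have ha' : a = a' := by split_ifs at ha <;> omega
      have hc' : c = c' := by split_ifs at hc <;> omega
      rw [ha', hc']
    | S k' d' c' =>
      obtain ⟨h1', h2', h3'⟩ := hd'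
      exfalso
      simp only [Door.rank] at hr hcon
      rcases lt_trichotomy k k' with h | h | h
      · have := hcon k (by omega)
        simp only [Door.arr] at this
        split_ifs at this <;> omega
      · have := hcon k (by omega)
        simp only [Door.arr] at this
        split_ifs at this <;> omega
      · have := hcon k' (by omega)
        simp only [Door.arr] at this
        split_ifs at this <;> omega
  | S k d c =>
    obtain ⟨h1, h2, h3⟩ := hd
    cases d' with
    | F k' m' a' c' =>
      obtain ⟨h1', h2', h3', h4'⟩ := hd'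
      exfalso
      simp only [Door.rank] at hr hcon
      have := hcon k' (by omega)
      simp only [Door.arr] at this
      split_ifs at this <;> omega
    | S k' d' c' =>
      obtain ⟨h1', h2', h3'⟩ := hd'
      simp only [Door.rank] at hr hcon
      have hk : k = k' := by
        by_contra hkk
        have := hcon k' (by omega)
        simp only [Door.arr] at this
        split_ifs at this <;> omega
      subst hk
      have ha := hcon k (by omega)
      have hc := hcon (k + 1) (by omega)
      simp only [Door.arr] at ha hc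
      have ha' : d = d' := by split_ifs at ha <;> omega
      have hc' : c = c' := by split_ifs at hc <;> omega
      rw [ha', hc']

/-- two different doors differ in a departure digit of level `≤` the smaller rank -/
theorem Door.dep_diff (d d' : Door) (hd : d.valid) (hd' : d'.valid) (hne : d ≠ d')
    (hr : d'.rank ≤ d.rank) : ∃ l ≤ d'.rank, d.dep l ≠ d'.dep l := by
  by_contra hcon
  push Not at hcon
  apply hne
  cases d with
  | F k m a c =>
    obtain ⟨h1, h2, h3, h4⟩ := hd
    cases d' with
    | F k' m' a' c' =>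
      obtain ⟨h1', h2', h3', h4'⟩ := hd'
      simp only [Door.rank] at hr hcon
      have hk : k = k' := by
        rcases lt_trichotomy k k' with h | h | h
        · have := hcon k (by omega)
          simp only [Door.dep] at this
          split_ifs at this <;> omega
        · exact h
        · have := hcon k' (by omega)
          simp only [Door.dep] at this
          split_ifs at this <;> omega
      subst hk
      have hm : m = m' := by
        by_contra hmm
        have := hcon m' (by omega)
        simp only [Door.dep] at this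
        split_ifs at this <;> omega
      subst hm
      have ha := hcon m (by omega)
      have hc := hcon (m + 1) (by omega)
      simp only [Door.dep] at ha hc
      have ha' : a = a' := by split_ifs at ha <;> omega
      have hc' : c = c' := by split_ifs at hc <;> omega
      rw [ha', hc']
    | S k' d' c' =>
      obtain ⟨h1', h2', h3'⟩ := hd'
      exfalso
      simp only [Door.rank] at hr hcon
      rcases lt_trichotomy k k' with h | h | h
      · have := hcon k (by omega)
        simp only [Door.dep] at this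
        split_ifs at this <;> omega
      · have := hcon k (by omega)
        simp only [Door.dep] at this
        split_ifs at this <;> omega
      · have := hcon k' (by omega)
        simp only [Door.dep] at this
        split_ifs at this <;> omega
  | S k d c =>
    obtain ⟨h1, h2, h3⟩ := hd
    cases d' with
    | F k' m' a' c' =>
      obtain ⟨h1', h2', h3', h4'⟩ := hd'
      exfalso
      simp only [Door.rank] at hr hcon
      have := hcon k' (by omega)
      simp only [Door.dep] at this
      split_ifs at this <;> omega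
    | S k' d' c' =>
      obtain ⟨h1', h2', h3'⟩ := hd'
      simp only [Door.rank] at hr hcon
      have hk : k = k' := by
        by_contra hkk
        have := hcon k' (by omega)
        simp only [Door.dep] at this
        split_ifs at this <;> omega
      subst hk
      have ha := hcon k (by omega)
      have hc := hcon (k + 1) (by omega)
      simp only [Door.dep] at ha hc
      have ha' : d = d' := by split_ifs at ha <;> omega
      have hc' : c = c' := by split_ifs at hc <;> omega
      rw [ha', hc']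

/-! ### Digit expansions of the centres -/
section expansion
variable (p : Par)

theorem Par.q_apply (k : ℕ) (l : Fin 5) :
    p.q k l = ∑ i ∈ Finset.range k, p.dl i * V 13 l := by
  simp [Par.q, Finset.sum_apply]

theorem Par.prefix_arr (d : Door) (n : ℕ) (hv : d.vis n) (l : Fin 5) :
    ∑ i ∈ Finset.range n, p.dl i * V (d.arr i) l = p.q (min d.lev n) l := by
  have h1 : ∀ i ∈ Finset.range n, p.dl i * V (d.arr i) l =
      if i < d.lev then p.dl i * V 13 l else 0 := by
    intro i hi
    rw [Finset.mem_range] at hi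
    cases d with
    | F k m a c =>
      have hv' : n ≤ m := hv
      change p.dl i * V (if i < k then 13 else if i < m then 0 else if i = m then a else c) l =
        if i < k then p.dl i * V 13 l else 0
      by_cases h : i < k
      · rw [if_pos h, if_pos h]
      · rw [if_neg h, if_neg h, if_pos (by omega), V_zero, mul_zero]
    | S k d c =>
      have hv' : n ≤ k := hv
      change p.dl i * V (if i < k then 13 else if i = k then d else c) l =
        if i < k then p.dl i * V 13 l else 0
      rw [if_pos (by omega), if_pos (by omega)]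
  rw [Finset.sum_congr rfl h1, ← Finset.sum_filter, Par.q_apply]
  congr 1
  ext i
  simp only [Finset.mem_filter, Finset.mem_range, lt_min_iff]
  tauto

theorem Par.prefix_dep (d : Door) (n : ℕ) (hv : d.vis n) (l : Fin 5) :
    ∑ i ∈ Finset.range n, p.dl i * V (d.dep i) l = if d.lev < n then p.dl d.lev * V 1 l else 0 := by
  have h1 : ∀ i ∈ Finset.range n, p.dl i * V (d.dep i) l =
      if i = d.lev then p.dl i * V 1 l else 0 := by
    intro i hi
    rw [Finset.mem_range] at hi
    cases d with
    | F k m a c =>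
      have hv' : n ≤ m := hv
      change p.dl i * V (if i < k then 0 else if i = k then 1 else if i < m then 0
        else if i = m then a else c) l = if i = k then p.dl i * V 1 l else 0
      by_cases h : i = k
      · rw [if_neg (by omega), if_pos h, if_pos h]
      · by_cases h' : i < k
        · rw [if_pos h', if_neg h, V_zero, mul_zero]
        · rw [if_neg h', if_neg h, if_neg h, if_pos (by omega), V_zero, mul_zero]
    | S k d c =>
      have hv' : n ≤ k := hv
      change p.dl i * V (if i < k then 0 else if i = k then d + 1 else c) l =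
        if i = k then p.dl i * V 1 l else 0
      rw [if_pos (by omega), if_neg (by omega), V_zero, mul_zero]
  rw [Finset.sum_congr rfl h1]
  by_cases h : d.lev < n
  · rw [if_pos h, Finset.sum_ite_eq' (Finset.range n) d.lev (fun i => p.dl i * V 1 l),
      if_pos (Finset.mem_range.2 h)]
  · rw [if_neg h, Finset.sum_ite_eq' (Finset.range n) d.lev (fun i => p.dl i * V 1 l),
      if_neg (by simpa using h)]

theorem Par.dc_sum (d : Door) (hd : d.valid) (l : Fin 5) :
    p.dc d l = ∑ i ∈ Finset.range (d.rank + 1), p.dl i * V (d.arr i) l := by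
  cases d with
  | F k m a c =>
    obtain ⟨h1, h2, h3, h4⟩ := hd
    simp only [Door.rank]
    rw [Finset.sum_range_succ, Finset.sum_range_succ,
      p.prefix_arr (.F k m a c) m (by simp [Door.vis])]
    have e1 : (Door.F k m a c).arr m = a := by
      simp only [Door.arr]; split_ifs <;> omega
    have e2 : (Door.F k m a c).arr (m + 1) = c := by
      simp only [Door.arr]; split_ifs <;> omega
    rw [e1, e2]
    simp only [Par.dc, Door.lev, min_eq_left h1.le, Pi.add_apply, Pi.smul_apply, smul_eq_mul]
  | S k d c =>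
    obtain ⟨h1, h2, h3⟩ := hd
    simp only [Door.rank]
    rw [Finset.sum_range_succ, Finset.sum_range_succ,
      p.prefix_arr (.S k d c) k (by simp [Door.vis])]
    have e1 : (Door.S k d c).arr k = d := by
      simp only [Door.arr]; split_ifs <;> omega
    have e2 : (Door.S k d c).arr (k + 1) = c := by
      simp only [Door.arr]; split_ifs <;> omega
    rw [e1, e2]
    simp only [Par.dc, Door.lev, min_self, Pi.add_apply, Pi.smul_apply, smul_eq_mul]

theorem Par.dcp_sum (d : Door) (hd : d.valid) (l : Fin 5) :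
    p.dcp d l = ∑ i ∈ Finset.range (d.rank + 1), p.dl i * V (d.dep i) l := by
  cases d with
  | F k m a c =>
    obtain ⟨h1, h2, h3, h4⟩ := hd
    simp only [Door.rank]
    rw [Finset.sum_range_succ, Finset.sum_range_succ,
      p.prefix_dep (.F k m a c) m (by simp [Door.vis])]
    have e1 : (Door.F k m a c).dep m = a := by
      simp only [Door.dep]; split_ifs <;> omega
    have e2 : (Door.F k m a c).dep (m + 1) = c := by
      simp only [Door.dep]; split_ifs <;> omega
    rw [e1, e2]
    have e3 : (Door.F k m a c).lev < m := h1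
    rw [if_pos e3]
    simp only [Par.dcp, Door.lev, Pi.add_apply, Pi.smul_apply, smul_eq_mul]
  | S k d c =>
    obtain ⟨h1, h2, h3⟩ := hd
    simp only [Door.rank]
    rw [Finset.sum_range_succ, Finset.sum_range_succ,
      p.prefix_dep (.S k d c) k (by simp [Door.vis])]
    have e1 : (Door.S k d c).dep k = d + 1 := by
      simp only [Door.dep]; split_ifs <;> omega
    have e2 : (Door.S k d c).dep (k + 1) = c := by
      simp only [Door.dep]; split_ifs <;> omega
    rw [e1, e2]
    simp only [Par.dcp, Door.lev, lt_irrefl, if_false, zero_add, Pi.add_apply, Pi.smul_apply,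
      smul_eq_mul]

theorem Par.sep_gen (s s' : ℕ → ℕ) (hs : ∀ i, s i ≤ 13) (hs' : ∀ i, s' i ≤ 13) (R R' : ℕ)
    (hR : R' ≤ R) (hR' : 1 ≤ R') (h : ∃ l ≤ R', s l ≠ s' l) :
    4 * p.x (R' - 1) ^ 15 ≤ |∑ i ∈ Finset.range (R + 1), p.dl i * V (s i) 0 -
      ∑ i ∈ Finset.range (R' + 1), p.dl i * V (s' i) 0| := by
  classical
  have hf := Nat.find_spec h
  have hmin : ∀ i < Nat.find h, s i = s' i := by
    intro i hi
    by_contra hne
    exact Nat.find_min h hi ⟨by omega, hne⟩
  have h1 := p.sep_first s s' hs hs' R R' (Nat.find h) (by omega) hf.1 hmin hf.2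
  have h2 : p.dl R' ≤ p.dl (Nat.find h) := p.dl_anti hf.1
  have h3 : p.dl R' = p.x (R' - 1) ^ 12 := by
    conv_lhs => rw [show R' = (R' - 1) + 1 by omega]
    exact p.dl_succ _
  have h4 : 4 * p.x (R' - 1) ^ 15 ≤ p.x (R' - 1) ^ 12 / 2 := by
    have h5 := p.x_cube_le (R' - 1)
    have h6 : 0 < p.x (R' - 1) ^ 12 := pow_pos (p.pos _) _
    have h7 : (1 : ℝ) / 10 ^ 120 ≤ 1 / 8 := by norm_num
    have h8 : p.x (R' - 1) ^ 15 = p.x (R' - 1) ^ 3 * p.x (R' - 1) ^ 12 := by ring
    rw [h8]
    nlinarith
  linarith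

end expansion

/-! ### The door system -/
section T2
variable (p : Par)

theorem Par.dc_mem' (d : Door) (hd : d.valid) (l : Fin 5) : 0 ≤ p.dc d l ∧ p.dc d l ≤ 1 := by
  rw [p.dc_sum d hd l, Finset.range_eq_Ico]
  obtain ⟨h1, h2⟩ := p.tail_V d.arr (d.arr_le hd) l 0 (d.rank + 1)
  refine ⟨h1, h2.trans ?_⟩
  have h3 := p.dl_le 0
  have : (1 : ℝ) / 10 ^ 40 ≤ 1 / 10 ^ 10 := by norm_num
  linarith

theorem Par.dcp_mem' (d : Door) (hd : d.valid) (l : Fin 5) : 0 ≤ p.dcp d l ∧ p.dcp d l ≤ 1 := by
  rw [p.dcp_sum d hd l, Finset.range_eq_Ico]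
  obtain ⟨h1, h2⟩ := p.tail_V d.dep (d.dep_le hd) l 0 (d.rank + 1)
  refine ⟨h1, h2.trans ?_⟩
  have h3 := p.dl_le 0
  have : (1 : ℝ) / 10 ^ 40 ≤ 1 / 10 ^ 10 := by norm_num
  linarith

theorem doors_finite (r : ℕ) : {j : {d : Door // d.valid} | j.1.rank ≤ r}.Finite := by
  let f : {d : Door // d.valid} → ℕ × ℕ × ℕ × ℕ × ℕ := fun j =>
    match j.1 with
    | .F k m a c => (0, k, m, a, c)
    | .S k d c => (1, k, 0, d, c)
  refine Set.Finite.of_injOn (f := f)
    (t := (Finset.range 2 ×ˢ Finset.range (r + 1) ×ˢ Finset.range (r + 1) ×ˢ Finset.range 14 ×ˢ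
      Finset.range 14 : Finset (ℕ × ℕ × ℕ × ℕ × ℕ))) ?_ ?_ (Finset.finite_toSet _)
  · rintro ⟨d, hd⟩ hj
    cases d with
    | F k m a c =>
      obtain ⟨h1, h2, h3, h4⟩ := hd
      simp only [Set.mem_ofPred_eq, Door.rank] at hj
      simp only [f, Finset.coe_product, Set.mem_prod, Finset.mem_coe, Finset.mem_range]
      omega
    | S k d c =>
      obtain ⟨h1, h2, h3⟩ := hd
      simp only [Set.mem_ofPred_eq, Door.rank] at hj
      simp only [f, Finset.coe_product, Set.mem_prod, Finset.mem_coe, Finset.mem_range]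
      omega
  · rintro ⟨d, hd⟩ _ ⟨d', hd'⟩ _ he
    cases d with
    | F k m a c =>
      cases d' with
      | F k' m' a' c' =>
        simp only [f, Prod.mk.injEq] at he
        obtain ⟨_, rfl, rfl, rfl, rfl⟩ := he
        rfl
      | S k' d' c' =>
        simp [f] at he
    | S k d c =>
      cases d' with
      | F k' m' a' c' =>
        simp [f] at he
      | S k' d' c' =>
        simp only [f, Prod.mk.injEq] at he
        obtain ⟨_, rfl, _, rfl, rfl⟩ := he
        rfl

noncomputable def Par.DS : DoorSys where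
  J := {d : Door // d.valid}
  rank d := d.1.rank
  c d := p.dc d.1
  cp d := p.dcp d.1
  rad d := p.x (d.1.rank - 1) ^ 15
  al d := if d.1.cls ≤ 7 then 1 else 2
  be d := if d.1.cls ≤ 7 then 3 else 4
  rank_pos := fun d => d.1.rank_pos'
  fin := fun r => doors_finite r
  rad_pos := fun d => pow_pos (p.pos _) _
  rad_le := fun d => by
    calc p.x (d.1.rank - 1) ^ 15 ≤ p.x (d.1.rank - 1) ^ 1 :=
          pow_le_pow_of_le_one (p.pos _).le (p.x_le_one _) (by norm_num)
      _ = p.x (d.1.rank - 1) := by ring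
      _ ≤ 1 / 10 ^ 40 := p.x_le _
      _ ≤ 1 / 4 := by norm_num
  c_mem := fun d l => p.dc_mem' d.1 d.2 l
  cp_mem := fun d l => p.dcp_mem' d.1 d.2 l
  al_mem := fun d => by
    by_cases h : d.1.cls ≤ 7
    · left; rw [if_pos h]
    · right; rw [if_neg h]
  be_mem := fun d => by
    by_cases h : d.1.cls ≤ 7
    · left; rw [if_pos h]
    · right; rw [if_neg h]
  rad_mono := fun j j' h => by
    have h1 : p.x (j.1.rank - 1) ≤ p.x (j'.1.rank - 1) := p.x_anti (by omega)
    exact pow_le_pow_left₀ (p.pos _).le h1 15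
  sepU := fun j j' hne hr => by
    rw [p.dc_sum j.1 j.2, p.dc_sum j'.1 j'.2]
    exact p.sep_gen _ _ (j.1.arr_le j.2) (j'.1.arr_le j'.2) _ _ hr j'.1.rank_pos'
      (Door.arr_diff _ _ j.2 j'.2 (fun h => hne (Subtype.ext h)) hr)
  sepT := fun j j' hne hr => by
    rw [p.dcp_sum j.1 j.2, p.dcp_sum j'.1 j'.2]
    exact p.sep_gen _ _ (j.1.dep_le j.2) (j'.1.dep_le j'.2) _ _ hr j'.1.rank_pos'
      (Door.dep_diff _ _ j.2 j'.2 (fun h => hne (Subtype.ext h)) hr)
  ex_one := ⟨⟨.S 0 1 0, by simp [Door.valid]⟩, rfl⟩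
  ex_two := ⟨⟨.S 1 1 0, by simp [Door.valid]⟩, rfl⟩

/-- position of the arrival centre of a door which resolves the digits `n`, `n+1` -/
theorem dc_near (d : Door) (hd : d.valid) (n : ℕ) (hv : d.vis n) (l : Fin 5) :
    |p.dc d l - (p.q (min d.lev n) l + p.dl n * V (d.arr n) l + p.dl (n + 1) * V (d.arr (n + 1)) l)|
      ≤ 10 ^ 5 * p.dl (n + 2) := by
  have hr := d.vis_rank n hv
  rw [p.dc_sum d hd l, ← Finset.sum_range_add_sum_Ico _ (show n + 2 ≤ d.rank + 1 by omega),
    Finset.sum_range_succ, Finset.sum_range_succ, p.prefix_arr d n hv]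
  obtain ⟨h1, h2⟩ := p.tail_V d.arr (d.arr_le hd) l (n + 2) (d.rank + 1)
  have h3 := p.dl_pos (n + 2)
  rw [add_sub_cancel_left, abs_of_nonneg h1]
  linarith

theorem dcp_near (d : Door) (hd : d.valid) (n : ℕ) (hv : d.vis n) (l : Fin 5) :
    |p.dcp d l - ((if d.lev < n then p.dl d.lev * V 1 l else 0) + p.dl n * V (d.dep n) l +
      p.dl (n + 1) * V (d.dep (n + 1)) l)| ≤ 10 ^ 5 * p.dl (n + 2) := by
  have hr := d.vis_rank n hv
  rw [p.dcp_sum d hd l, ← Finset.sum_range_add_sum_Ico _ (show n + 2 ≤ d.rank + 1 by omega),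
    Finset.sum_range_succ, Finset.sum_range_succ, p.prefix_dep d n hv]
  obtain ⟨h1, h2⟩ := p.tail_V d.dep (d.dep_le hd) l (n + 2) (d.rank + 1)
  have h3 := p.dl_pos (n + 2)
  rw [add_sub_cancel_left, abs_of_nonneg h1]
  linarith

/-- exact formulas when the door resolves nothing beyond the digits `n`, `n+1` -/
theorem dc_exact (d : Door) (hd : d.valid) (n : ℕ) (hv : d.vis n) (hr : d.rank = n + 1) (l : Fin 5) :
    p.dc d l = p.q (min d.lev n) l + p.dl n * V (d.arr n) l + p.dl (n + 1) * V (d.arr (n + 1)) l := by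
  rw [p.dc_sum d hd l, hr, Finset.sum_range_succ, Finset.sum_range_succ, p.prefix_arr d n hv]

theorem dcp_exact (d : Door) (hd : d.valid) (n : ℕ) (hv : d.vis n) (hr : d.rank = n + 1)
    (l : Fin 5) :
    p.dcp d l = (if d.lev < n then p.dl d.lev * V 1 l else 0) + p.dl n * V (d.dep n) l +
      p.dl (n + 1) * V (d.dep (n + 1)) l := by
  rw [p.dcp_sum d hd l, hr, Finset.sum_range_succ, Finset.sum_range_succ, p.prefix_dep d n hv]

end T2

end H783C
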