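import Pool.Agent.H783C.Defs

open Set Function Topology
open scoped Manifold ContDiff

namespace H783C

section T5
variable {M : Type} [TopologicalSpace M] [ChartedSpace E M] [IsManifold 𝓘(ℝ, E) ∞ M] [T2Space M]
  [SecondCountableTopology M]

theorem local_nhd (f : M → M) (hf : Continuous f) (W : Set (M × M)) (hW : IsOpen W)
    (h : ∀ z, (z, f z) ∈ W) (z : M) :
    ∃ N ∈ 𝓝 z, N ⊆ (chartAt E z).source ∧ MapsTo f N (chartAt E (f z)).source ∧
      ∃ e > 0, ∀ z' ∈ N, ∀ w ∈ (chartAt E (f z)).source,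
        ‖chartAt E (f z) w - chartAt E (f z) (f z')‖ < e → (z', w) ∈ W := by
  set ψ := chartAt E (f z) with hψ
  have hfz : f z ∈ ψ.source := mem_chart_source E (f z)
  -- the open set in `M × E`
  have h1 : ∀ᶠ p : M × E in 𝓝 (z, ψ (f z)), p.2 ∈ ψ.target ∧ (p.1, ψ.symm p.2) ∈ W := by
    have h2 : ∀ᶠ p : M × E in 𝓝 (z, ψ (f z)), p.2 ∈ ψ.target :=
      (continuous_snd.tendsto (z, ψ (f z))).eventually
        (ψ.open_target.mem_nhds (ψ.map_source hfz))
    have h3 : ContinuousAt (fun p : M × E => (p.1, ψ.symm p.2)) (z, ψ (f z)) := by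
      refine ContinuousAt.prodMk continuousAt_fst ?_
      exact ContinuousAt.comp (x := (z, ψ (f z)))
        (ψ.symm.continuousAt (ψ.map_source hfz)) continuousAt_snd
    have h4 : (fun p : M × E => (p.1, ψ.symm p.2)) (z, ψ (f z)) ∈ W := by
      simp only [ψ.left_inv hfz]
      exact h z
    exact h2.and (h3.eventually (hW.mem_nhds h4))
  rw [nhds_prod_eq] at h1
  obtain ⟨A, hA, B, hB, hAB⟩ := Filter.eventually_prod_iff.1 h1
  obtain ⟨r, hr, hrB⟩ := Metric.eventually_nhds_iff.1 hB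
  have h5 : ∀ᶠ z' in 𝓝 z, f z' ∈ ψ.source :=
    hf.continuousAt.eventually (ψ.open_source.mem_nhds hfz)
  have h6 : ∀ᶠ z' in 𝓝 z, dist (ψ (f z')) (ψ (f z)) < r / 2 := by
    have h7 : ContinuousAt (fun z' => ψ (f z')) z :=
      ContinuousAt.comp (ψ.continuousAt hfz) hf.continuousAt
    exact Metric.tendsto_nhds.1 h7 (r / 2) (by positivity)
  have h8 : ∀ᶠ z' in 𝓝 z, z' ∈ (chartAt E z).source :=
    (chartAt E z).open_source.mem_nhds (mem_chart_source E z)
  refine ⟨{z' | A z' ∧ f z' ∈ ψ.source ∧ dist (ψ (f z')) (ψ (f z)) < r / 2 ∧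
    z' ∈ (chartAt E z).source}, ?_, ?_, ?_, r / 2, by positivity, ?_⟩
  · exact (hA.and (h5.and (h6.and h8)))
  · intro z' hz'
    exact hz'.2.2.2
  · intro z' hz'
    exact hz'.2.1
  · rintro z' ⟨a1, a2, a3, a4⟩ w hw hlt
    have h9 : dist (ψ w) (ψ (f z)) < r := by
      have h10 : dist (ψ w) (ψ (f z')) < r / 2 := by rwa [dist_eq_norm]
      have := dist_triangle (ψ w) (ψ (f z')) (ψ (f z))
      linarith
    have h11 := (hAB a1 (hrB h9)).2
    rwa [ψ.left_inv hw] at h11

theorem norm_iter_zero (F G : E → E) (x : E) :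
    ‖iteratedFDeriv ℝ 0 F x - iteratedFDeriv ℝ 0 G x‖ = ‖F x - G x‖ := by
  rw [iteratedFDeriv_zero_eq_comp, iteratedFDeriv_zero_eq_comp]
  simp only [Function.comp_apply]
  rw [← map_sub, LinearIsometryEquiv.norm_map]

theorem graph_nhd (f : M → M) (hf : Continuous f) (W : Set (M × M)) (hW : IsOpen W)
    (h : ∀ z, (z, f z) ∈ W) :
    ∃ 𝒲 : WDatum f, 𝒲.order = 2 ∧ ∀ g ∈ 𝒲.nbhd, ∀ z, (z, g z) ∈ W := by
  have : LocallyCompactSpace M := ChartedSpace.locallyCompactSpace E M
  have : SigmaCompactSpace M := inferInstance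
  choose N hN hN1 hN2 e he hN3 using local_nhd f hf W hW h
  have hB : ∀ z : M, (𝓝 z).HasBasis (fun s : Set M => (s ∈ 𝓝 z ∧ IsCompact s) ∧ s ⊆ N z)
      (fun s => s) := by
    intro z
    refine (compact_basis_nhds z).restrict ?_
    rintro s ⟨hs, _⟩
    obtain ⟨t, ⟨ht1, ht2⟩, ht3⟩ := (compact_basis_nhds z).mem_iff.1 (Filter.inter_mem hs (hN z))
    exact ⟨t, ⟨ht1, ht2⟩, fun x hx => (ht3 hx).2, fun x hx => (ht3 hx).1⟩
  obtain ⟨α, c, r, hr, hcov, hlf⟩ := refinement_of_locallyCompact_sigmaCompact_of_nhds_basis hB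
  refine ⟨{ ι := α
            K := r
            φ := fun a => chartAt E (c a)
            ψ := fun a => chartAt E (f (c a))
            ε := fun a => e (c a)
            order := 2
            lf := hlf
            compact := fun a => (hr a).1.2
            hφ := fun a => IsManifold.chart_mem_maximalAtlas (c a)
            hψ := fun a => IsManifold.chart_mem_maximalAtlas (f (c a))
            subs := fun a => (hr a).2.trans (hN1 (c a))
            maps := fun a => (hN2 (c a)).mono_left (hr a).2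
            pos := fun a => he (c a) }, rfl, ?_⟩
  intro g hg z
  have hz : z ∈ ⋃ a, r a := by rw [hcov]; exact mem_univ z
  obtain ⟨a, ha⟩ := mem_iUnion.1 hz
  obtain ⟨h1, h2⟩ := hg a
  have h3 := h2 z ha 0 (Nat.zero_le _)
  rw [norm_iter_zero] at h3
  simp only [Function.comp_apply] at h3
  have hzs : z ∈ (chartAt E (c a)).source := hN1 (c a) ((hr a).2 ha)
  rw [(chartAt E (c a)).left_inv hzs] at h3
  exact hN3 (c a) z ((hr a).2 ha) (g z) (h1 ha) h3

theorem join_datum (f : M → M) (W₁ W₂ : WDatum f) (h₁ : W₁.order = 2) (h₂ : W₂.order = 2) :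
    ∃ W : WDatum f, W.order = 2 ∧ W.nbhd ⊆ W₁.nbhd ∩ W₂.nbhd := by
  refine ⟨{ ι := W₁.ι ⊕ W₂.ι
            K := Sum.elim W₁.K W₂.K
            φ := Sum.elim W₁.φ W₂.φ
            ψ := Sum.elim W₁.ψ W₂.ψ
            ε := Sum.elim W₁.ε W₂.ε
            order := 2
            lf := W₁.lf.sumElim W₂.lf
            compact := ?_
            hφ := ?_
            hψ := ?_
            subs := ?_
            maps := ?_
            pos := ?_ }, rfl, ?_⟩
  · rintro (i | i)
    · exact W₁.compact i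
    · exact W₂.compact i
  · rintro (i | i)
    · exact W₁.hφ i
    · exact W₂.hφ i
  · rintro (i | i)
    · exact W₁.hψ i
    · exact W₂.hψ i
  · rintro (i | i)
    · exact W₁.subs i
    · exact W₂.subs i
  · rintro (i | i)
    · exact W₁.maps i
    · exact W₂.maps i
  · rintro (i | i)
    · exact W₁.pos i
    · exact W₂.pos i
  · intro g hg
    constructor
    · intro i
      have := hg (Sum.inl i)
      refine ⟨this.1, fun z hz k hk => this.2 z hz k (by rw [h₁] at hk; exact hk)⟩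
    · intro i
      have := hg (Sum.inr i)
      refine ⟨this.1, fun z hz k hk => this.2 z hz k (by rw [h₂] at hk; exact hk)⟩

end T5

end H783C
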